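import Mathlib
import Pool.Agent.Y593.LC.Stmt

set_option autoImplicit false

/-!
# Exact lcs structures without Reeb curves, arbitrarily close to the lcs-fication of the contact 3-torus

Definitions: `Pool.Agent.H660R3.LcsDefs` (1-forms, exact lcs structures, rational forms, Reeb curves),
`Pool.Agent.Y593.LC.Close` (`CkClose`), `Pool.Agent.Y593.LC.Contact` (`IsContact`),
`Pool.Agent.Y593.LC.Stmt` (the tori, the formulas in coordinates, conformal forms, convergence in every
`C^k`).
-/
open scoped ContDiff Manifold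
open Pool.Agent.H660R3 Pool.Agent.H660R3.Torus Pool.Agent.Y593.LC Real

namespace Pool.Agent.Results.MP_910a86_gt.CloseToContactTorus

/-- Let `β = cos(2πz) dx + sin(2πz) dy`, a contact form on the 3-torus `N`, and let `(λ_0, α)` be its
lcs-fication on the 4-torus `M`: `λ_0` is the pullback of `β` and `α = dθ`. There is a family `λ_ε`,
`0 ≤ ε < ε₀`, of 1-forms conformal to `λ_0` and tending to `λ_0` in `C^k` for every `k`, such that all
`(λ_ε, α)` are exact lcs structures with rational `α`, `(λ_0, α)` has a Reeb curve, and no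
`(λ_ε, α)` with `0 < ε < ε₀` has one. -/
theorem result :
    ∃ (N : Type) (_ : TopologicalSpace N) (_ : ChartedSpace (EuclideanSpace ℝ (Fin 3)) N)
      (prN : EuclideanSpace ℝ (Fin 3) → N)
      (M : Type) (_ : TopologicalSpace M) (_ : ChartedSpace (EuclideanSpace ℝ (Fin 4)) M)
      (prM : EuclideanSpace ℝ (Fin 4) → M),
    IsTorus prN ∧ IsTorus prM ∧ IsClosedManifold 3 N ∧ IsClosedManifold 4 M ∧
    ∃ (β : OneForm 3 N) (alpha : OneForm 4 M) (lam : ℝ → OneForm 4 M) (ε₀ : ℝ),
      0 < ε₀ ∧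
      -- the contact form and its lcs-fication
      IsContact β ∧ IsCosSin3 β ∧ IsCosSin4 (lam 0) ∧ IsDTheta alpha ∧
      -- a family of exact lcs structures conformal to it
      (∀ ε, 0 ≤ ε → ε < ε₀ → IsExactLcs (lam ε) alpha) ∧ IsRationalForm alpha ∧
      (∀ ε, IsConformal (lam ε) (lam 0)) ∧
      -- `λ_0` has a Reeb curve, the others have none
      (∃ o, IsReebCurve (lam 0) o) ∧
      (∀ ε, 0 < ε → ε < ε₀ → ∀ o, ¬ IsReebCurve (lam ε) o) ∧
      -- `λ_ε` tends to `λ_0` in `C^k` for every `k`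
      TendsInCk lam (lam 0) := by
  refine ⟨QQ (Zn 3), inferInstance, inferInstance, pr (Zn 3), QQ (Zn 4), inferInstance,
    inferInstance, pr (Zn 4), isTorus 3, isTorus 4, isClosedManifold 3, isClosedManifold 4, ?_⟩
  obtain ⟨ε₀, h0, h⟩ := exists_eps
  refine ⟨beta, LcsEx.alp, LcsEx.lam, ε₀, h0, beta_contact, ?_, ?_, ?_, ?_, LcsEx.alp_rational, ?_,
    ⟨_, reeb_zero⟩, fun ε h1 h2 => (h ε h1 h2).2, ?_⟩
  · intro x₀ y u
    unfold beta
    rw [coordOne_descend]
    rfl
  · intro x₀ y u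
    unfold LcsEx.lam
    rw [coordOne_descend]
    simp [LcsEx.bl]
  · intro x₀ y u
    unfold LcsEx.alp
    rw [coordOne_descend]
    rfl
  · intro ε h1 h2
    rcases h1.eq_or_lt with h3 | h3
    · rw [← h3]
      exact exact_zero
    · exact (h ε h3 h2).1
  · intro ε p
    refine ⟨exp (ε * LcsEx.FF (chartAt (EE 4) p p)), exp_pos _, fun u => ?_⟩
    change LcsEx.bl ε (chartAt (EE 4) p p) u = _ * LcsEx.bl 0 (chartAt (EE 4) p p) u
    simp [LcsEx.bl]
  · intro k δ hδ
    obtain ⟨r, hr, h3⟩ := Metric.eventually_nhds_iff.1 (close k hδ)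
    exact ⟨r, hr, fun ε h1 h2 => h3 (by rw [Real.dist_eq, sub_zero, abs_of_pos h1]; exact h2)⟩

end Pool.Agent.Results.MP_910a86_gt.CloseToContactTorus
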