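import Mathlib
import Pool.Agent.Y593.LG.HopfS

set_option autoImplicit false

/-!
# Exact lcs structures without Reeb curves, arbitrarily close to the Hopf lcs structure on `S^(n-1) × S¹`

Definitions: `Pool.Agent.H660R3.LcsDefs` (1-forms, exact lcs structures, rational forms, Reeb curves),
`Pool.Agent.Y593.LC.Stmt` (`IsClosedManifold`), `Pool.Agent.Y593.LG.Defs` (`CS`, `jp`),
`Pool.Agent.Y593.LG.HopfS` (the rest). Parts of the proof are by helper77, helper576, helper780,
helper217 and helper74, after files of helper888, helper604, helper480 and helper77.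
-/
open scoped ContDiff Manifold
open Pool.Agent.H660R3 Pool.Agent.Y593.LG

namespace Pool.Agent.Results.MP_910a86_gt.CloseToHopfAllDimensions

/-- Let `n ≥ 4` be even and let `(λ_0, α)` be the Hopf lcs structure on `M = S^(n-1) × S¹ =
(ℝⁿ ∖ 0)/(y ~ 2y)`, that is, `λ_0` is the pullback of the standard contact form of `S^(n-1)` and
`α = dθ`. There is a family `λ_ε`, `0 ≤ ε < ε₀`, of 1-forms conformal to `λ_0` and tending to `λ_0` in
`C^k` for every `k`, such that all `(λ_ε, α)` are exact lcs structures with rational `α`, and no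
`(λ_ε, α)` with `0 < ε < ε₀` has a Reeb curve. (The complex structure is given by any `S : CS n`, which
exists iff `n` is even.) -/
theorem result :
    (∀ m : ℕ, Nonempty (CS (2 * m))) ∧
    ∀ n : ℕ, 4 ≤ n → ∀ S : CS n,
    ∃ (M : Type) (_ : TopologicalSpace M) (_ : ChartedSpace (EuclideanSpace ℝ (Fin n)) M)
      (pr : EuclideanSpace ℝ (Fin n) → M),
    IsHopfManifold pr ∧ Pool.Agent.Y593.LC.IsClosedManifold n M ∧
    ∃ (alpha : OneForm n M) (lam : ℝ → OneForm n M) (ε₀ : ℝ),
      0 < ε₀ ∧
      -- the Hopf lcs structure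
      IsHopfForm S (lam 0) ∧ IsAngularForm alpha ∧ IsRationalForm alpha ∧
      -- a family of exact lcs structures conformal to it
      (∀ ε, 0 ≤ ε → ε < ε₀ → IsExactLcs (lam ε) alpha) ∧
      (∀ ε p, ∃ c : ℝ, 0 < c ∧ ∀ u, (lam ε).val p u = c * (lam 0).val p u) ∧
      -- without Reeb curves for `ε > 0`
      (∀ ε, 0 < ε → ε < ε₀ → ∀ o, ¬ IsReebCurve (lam ε) o) ∧
      -- `λ_ε` tends to `λ_0` in `C^k` for every `k`
      TendsOnShell lam := by
  refine ⟨exists_CS, fun n hn4 S => ?_⟩
  have hn : 0 < n := by omega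
  have : Nonempty (Pool.Agent.Y593.LC.HM.Om n) := nonempty_Om hn
  obtain ⟨ε₀, h0, h1, h2⟩ := exists_eps_hopf hn S
  exact ⟨Pool.Agent.Y593.LC.HM.Hopf n, inferInstance, inferInstance, Pool.Agent.Y593.LC.HM.prj,
    isHopfManifold, isClosed_hopf (by omega), HE.alp, HE.lam hn S, ε₀, h0, isHopfForm hn S,
    isAngularForm, HE.alp_rational, h1, isConformal_hopf hn S, h2, tendsOnShell hn S⟩

end Pool.Agent.Results.MP_910a86_gt.CloseToHopfAllDimensions
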